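import Mathlib

namespace Pool.Agent.Results.MP_b3a6b1_al.NotTriple

open Module

section Defs
variable {K V : Type*} [Field K] [AddCommGroup V] [Module K V]

/-- Tridiagonal, with every entry on the sub- and superdiagonal nonzero. -/
def IrrTri {n : ℕ} (M : Matrix (Fin n) (Fin n) K) : Prop :=
  (∀ i j : Fin n, (i : ℕ) + 1 < j ∨ (j : ℕ) + 1 < i → M i j = 0) ∧
  (∀ i j : Fin n, (i : ℕ) + 1 = j ∨ (j : ℕ) + 1 = i → M i j ≠ 0)

/-- A Leonard pair on a space of dimension `d+1`. -/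
def LeonardPair (d : ℕ) (A As : End K V) : Prop :=
  (∃ b : Basis (Fin (d + 1)) K V,
    (LinearMap.toMatrix b b A).IsDiag ∧ IrrTri (LinearMap.toMatrix b b As)) ∧
  (∃ b : Basis (Fin (d + 1)) K V,
    (LinearMap.toMatrix b b As).IsDiag ∧ IrrTri (LinearMap.toMatrix b b A))

/-- Some basis makes `A` diagonal and both `B` and `C` irreducible tridiagonal. -/
def DiagTri (d : ℕ) (A B C : End K V) : Prop :=
  ∃ b : Basis (Fin (d + 1)) K V, (LinearMap.toMatrix b b A).IsDiag ∧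
    IrrTri (LinearMap.toMatrix b b B) ∧ IrrTri (LinearMap.toMatrix b b C)

/-- A Leonard triple on a space of dimension `d+1`. -/
def LeonardTriple (d : ℕ) (A B C : End K V) : Prop :=
  DiagTri d A B C ∧ DiagTri d B A C ∧ DiagTri d C A B

/-- The ordered pair `B, C` satisfies the Askey-Wilson relations. -/
def AW (B C : End K V) : Prop :=
  ∃ β γ γs ρ ρs ω η ηs : K,
    B ^ 2 * C - β • (B * C * B) + C * B ^ 2 - γ • (B * C + C * B) - ρ • C
      = γs • B ^ 2 + ω • B + η • (1 : End K V) ∧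
    C ^ 2 * B - β • (C * B * C) + B * C ^ 2 - γs • (C * B + B * C) - ρs • B
      = γ • C ^ 2 + ω • C + ηs • (1 : End K V)

/-- Some basis makes `A` diagonal. -/
def Diagonalizable (d : ℕ) (A : End K V) : Prop :=
  ∃ b : Basis (Fin (d + 1)) K V, (LinearMap.toMatrix b b A).IsDiag

theorem AW.symm {B C : End K V} (h : AW B C) : AW C B := by
  obtain ⟨β, γ, γs, ρ, ρs, ω, η, ηs, h1, h2⟩ := h
  exact ⟨β, γs, γ, ρs, ρ, ω, ηs, η, h2, h1⟩
end Defs

abbrev M3 := Matrix (Fin 3) (Fin 3) ℚ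

def mA : M3 := !![0, 0, 0; 1, 1, 0; 0, 1, 3]
def mS : M3 := !![0, -1, 0; 0, -1, 2; 0, 0, -3]

noncomputable abbrev L : M3 ≃ₐ[ℚ] End ℚ (Fin 3 → ℚ) := Matrix.toLinAlgEquiv'

theorem exBasis (P Q : M3) (h1 : P * Q = 1) (h2 : Q * P = 1) :
    ∃ b : Basis (Fin 3) ℚ (Fin 3 → ℚ), ∀ M : M3, LinearMap.toMatrix b b (L M) = Q * M * P := by
  refine ⟨(Pi.basisFun ℚ (Fin 3)).map (Matrix.toLin'OfInv h1 h2).symm, fun M => ?_⟩
  ext i j
  simp [LinearMap.toMatrix_apply, Matrix.toLin'OfInv, Matrix.toLinAlgEquiv'_apply,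
    Matrix.mulVec_mulVec]
  rfl

theorem aw (B C : M3) : AW (L B) (L C) := by
  refine ⟨-1, B.trace, C.trace, ((B * B).trace - B.trace ^ 2) / 2,
    ((C * C).trace - C.trace ^ 2) / 2, (B * C).trace - B.trace * C.trace,
    (B * B * C).trace - B.trace * (B * C).trace - C.trace * ((B * B).trace - B.trace ^ 2) / 2,
    (C * C * B).trace - C.trace * (B * C).trace - B.trace * ((C * C).trace - C.trace ^ 2) / 2,
    ?_, ?_⟩ <;>
  · rw [← map_one L]
    simp only [← map_mul, ← map_pow, ← map_smul, ← map_add, ← map_sub]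
    congr 1
    ext i j
    fin_cases i <;> fin_cases j <;>
      simp [pow_two, Matrix.mul_apply, Fin.sum_univ_three, Matrix.trace, Matrix.one_apply] <;> ring

theorem notDT : ¬ DiagTri 2 (L (mA + mS)) (L mA) (L mS) := by
  rintro ⟨b, hD, ⟨hT, -⟩, -⟩
  set D := LinearMap.toMatrix b b (L (mA + mS)) with hDd
  set T := LinearMap.toMatrix b b (L mA) with hTd
  have key : (D * D * T - (2 : ℚ) • (D * T * D) + T * D * D).det =
      ((mA + mS) * (mA + mS) * mA - (2 : ℚ) • ((mA + mS) * mA * (mA + mS))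
        + mA * (mA + mS) * (mA + mS)).det := by
    symm
    rw [← LinearMap.det_toLin', ← LinearMap.det_toMatrix b]
    congr 1
    symm
    change _ = LinearMap.toMatrixAlgEquiv b (L _)
    simp only [map_add, map_sub, map_mul, map_smul]
    simp only [hDd, hTd, map_add]
    rfl
  have h02 : T 0 2 = 0 := hT 0 2 (by simp)
  have h20 : T 2 0 = 0 := hT 2 0 (by simp)
  have d01 : D 0 1 = 0 := hD (by decide)
  have d02 : D 0 2 = 0 := hD (by decide)
  have d10 : D 1 0 = 0 := hD (by decide)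
  have d12 : D 1 2 = 0 := hD (by decide)
  have d20 : D 2 0 = 0 := hD (by decide)
  have d21 : D 2 1 = 0 := hD (by decide)
  have l : (D * D * T - (2 : ℚ) • (D * T * D) + T * D * D).det = 0 := by
    simp [Matrix.det_fin_three, Matrix.mul_apply, Fin.sum_univ_three, h02, h20, d01, d02, d10,
      d12, d20, d21]
    ring
  rw [l] at key
  revert key
  simp [Matrix.det_fin_three, mA, mS]
  norm_num

theorem result : ∃ A As Ae : End ℚ (Fin 3 → ℚ),
    LeonardPair 2 A As ∧
    Ae ∈ Submodule.span ℚ {1, A, As, A * As, As * A} ∧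
    A ∈ Submodule.span ℚ {1, As, Ae, As * Ae, Ae * As} ∧
    As ∈ Submodule.span ℚ {1, Ae, A, Ae * A, A * Ae} ∧
    (AW A As ∧ AW As A ∧ AW As Ae ∧ AW Ae As ∧ AW Ae A ∧ AW A Ae) ∧
    Diagonalizable 2 Ae ∧ ¬ LeonardTriple 2 A As Ae := by
  refine ⟨L mA, L mS, L (mA + mS), ⟨?_, ?_⟩, ?_, ?_, ?_,
    ⟨aw _ _, aw _ _, aw _ _, aw _ _, aw _ _, aw _ _⟩, ?_, fun h => notDT h.2.2⟩
  · obtain ⟨b, hb⟩ := exBasis !![3, 0, 0; -3, 2, 0; 1, -1, 1]
      !![1/3, 0, 0; 1/2, 1/2, 0; 1/6, 1/2, 1]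
      (by ext i j; fin_cases i <;> fin_cases j <;> simp [Matrix.mul_apply, Fin.sum_univ_three] <;> norm_num)
      (by ext i j; fin_cases i <;> fin_cases j <;> simp [Matrix.mul_apply, Fin.sum_univ_three] <;> norm_num)
    refine ⟨b, ?_, ?_, ?_⟩ <;> rw [hb] <;> intro i j <;> fin_cases i <;> fin_cases j <;>
      simp [mA, mS] <;> norm_num
  · obtain ⟨b, hb⟩ := exBasis !![1, 1, 1; 0, 1, 3; 0, 0, -3]
      !![1, -1, -2/3; 0, 1, 1; 0, 0, -1/3]
      (by ext i j; fin_cases i <;> fin_cases j <;> simp [Matrix.mul_apply, Fin.sum_univ_three] <;> norm_num)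
      (by ext i j; fin_cases i <;> fin_cases j <;> simp [Matrix.mul_apply, Fin.sum_univ_three] <;> norm_num)
    refine ⟨b, ?_, ?_, ?_⟩ <;> rw [hb] <;> intro i j <;> fin_cases i <;> fin_cases j <;>
      simp [mA, mS] <;> norm_num
  · rw [map_add]
    exact Submodule.add_mem _ (Submodule.subset_span (by simp)) (Submodule.subset_span (by simp))
  · have : L mA = L (mA + mS) - L mS := by simp
    rw [this]
    exact Submodule.sub_mem _ (Submodule.subset_span (by simp)) (Submodule.subset_span (by simp))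
  · have : L mS = L (mA + mS) - L mA := by simp
    rw [this]
    exact Submodule.sub_mem _ (Submodule.subset_span (by simp)) (Submodule.subset_span (by simp))
  · obtain ⟨b, hb⟩ := exBasis !![2, -1, 1; 0, 1, 1; -1, 1, -1]
      !![1, 0, 1; 1/2, 1/2, 1; -1/2, 1/2, -1]
      (by ext i j; fin_cases i <;> fin_cases j <;> simp [Matrix.mul_apply, Fin.sum_univ_three] <;> norm_num)
      (by ext i j; fin_cases i <;> fin_cases j <;> simp [Matrix.mul_apply, Fin.sum_univ_three] <;> norm_num)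
    refine ⟨b, ?_⟩
    rw [hb]; intro i j; fin_cases i <;> fin_cases j <;> simp [mA, mS] <;> norm_num

end Pool.Agent.Results.MP_b3a6b1_al.NotTriple
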